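import Pool.Agent.N718.DC.Stm2
import Pool.Agent.U424.DQ.Stm

/-!
# Project DQ (helper424), part MAINAG (helper784), from part MAINA of project DC (helper477)
-/

set_option autoImplicit false

namespace Pool.Agent.U784.DQ

open Pool.Agent.N718.DC Pool.Agent.U424.DQ Finset
open Pool.Agent.N546.PN (Typ)

noncomputable section

variable {ι : Type} [Fintype ι] [DecidableEq ι] {e : ι → ℕ}

/-- local conditions at a residue class -/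
def LocC (T : Typ ι e) (M : ℕ) (γ : (k : ι) → Fin (e k + 2) → ℤ) (a₀ a₁ : ℤ) : Prop :=
  (∀ p : ℕ, p.Prime → p ∣ M → 3 ≤ padicValNat p M ∧
      ∀ k, ¬ ((p : ℤ) ^ (padicValNat p M - 3 + 1) ∣ fm (γ k) a₀ a₁)) ∧
    (∀ (p : ℕ) [Fact p.Prime], p ∣ M → PSG T γ ((a₀ : ℤ) : ℚ_[p]) ((a₁ : ℤ) : ℚ_[p]))

open Classical in
/-- the exceptional families in a class -/
def BB (T : Typ ι e) (M : ℕ) (γ : (k : ι) → Fin (e k + 2) → ℤ) (s : ι → ℤ)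
    (a₀ a₁ : ℤ) (α β : ℝ) (H : ℕ) : Finset ((k : ι) → Fin (e k + 2) → ℤ) :=
  (BXI e H).filter (fun c => (∀ k j, (M : ℤ) ∣ c k j - γ k j) ∧
      (∀ k, ∀ z : ℝ, α < z → z < β → 0 < (s k : ℝ) * fmv (c k) 1 z) ∧
      ¬ ∃ x y : ℤ, 0 < x ∧ (M : ℤ) ∣ x - a₀ ∧ (M : ℤ) ∣ y - a₁ ∧ α * x < y ∧ (y : ℝ) < β * x ∧
        PSG T c (x : ℚ) (y : ℚ))

theorem card_Gam (e : ι → ℕ) (M : ℕ) :
    (Fintype.piFinset (fun k : ι =>
      Fintype.piFinset (fun _ : Fin (e k + 2) => Ico (0 : ℤ) M))).card = M ^ ncI e := by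
  simp only [Fintype.card_piFinset, prod_const, Int.card_Ico, sub_zero, Int.toNat_natCast,
    card_univ, Fintype.card_fin]
  rw [prod_pow_eq_pow_sum]
  rfl

theorem padic_close (p : Nat.Primes) (N : ℕ) (X : ℚ_[(p : ℕ)]) (a b : ℤ)
    (h1 : ‖X - (a : ℚ_[(p : ℕ)])‖ ≤ (((p : ℕ) : ℝ) ^ N)⁻¹) (h2 : (((p : ℕ) : ℤ) ^ N) ∣ a - b) :
    ‖X - (b : ℚ_[(p : ℕ)])‖ ≤ (((p : ℕ) : ℝ) ^ N)⁻¹ := by
  have h3 : ‖((a - b : ℤ) : ℚ_[(p : ℕ)])‖ ≤ (((p : ℕ) : ℝ) ^ N)⁻¹ := by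
    have h4 := (Padic.norm_int_le_pow_iff_dvd (p := (p : ℕ)) (a - b) N).2 (by exact_mod_cast h2)
    rwa [zpow_neg, zpow_natCast] at h4
  have h5 : X - (b : ℚ_[(p : ℕ)]) = (X - (a : ℚ_[(p : ℕ)])) + ((a - b : ℤ) : ℚ_[(p : ℕ)]) := by
    push_cast
    ring
  rw [h5]
  exact (Padic.nonarchimedean _ _).trans (max_le h1 h3)

theorem mainag_ (h1 : S_CLSG) (h2 : S_PADC) (h3 : S_REALG) (h4 : S_GLUEG) : S_MAINAG := by
  classical
  intro ι _ _ m φ e T hAri U hU S N η hη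
  obtain ⟨Z, HR, hZ, hR⟩ := h3 ι e T U hU (η / 4) (by positivity)
  obtain ⟨C, hC0, hC⟩ := h1 ι m φ e T hAri
  obtain ⟨Q, hQ⟩ : ∃ Q : ℕ, Q = ∏ p ∈ S, (p : ℕ) ^ N := ⟨_, rfl⟩
  have hQ0 : 0 < Q := by
    rw [hQ]
    exact prod_pos fun p _ => pow_pos p.2.pos N
  obtain ⟨Sg, hSg⟩ : ∃ Sg : Finset (ι → ℤ),
    Sg = Fintype.piFinset (fun _ => ({1, -1} : Finset ℤ)) := ⟨_, rfl⟩
  obtain ⟨Rs, hRs⟩ : ∃ Rs : Finset (ℤ × ℤ), Rs = Ico (0 : ℤ) Q ×ˢ Ico (0 : ℤ) Q := ⟨_, rfl⟩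
  -- the choice of `W`
  obtain ⟨Kc, hKc⟩ : ∃ Kc : ℝ, Kc = C * (Rs.card * Z.card * Sg.card) := ⟨_, rfl⟩
  have hKc0 : 0 ≤ Kc := by rw [hKc]; positivity
  obtain ⟨W, hW2, hWS, hWK⟩ : ∃ W : ℕ, 2 ≤ W ∧ (∀ p ∈ S, (p : ℕ) ≤ W) ∧ Kc / W ≤ η / 4 := by
    obtain ⟨W₁, hW₁⟩ := exists_nat_gt (4 * Kc / η)
    refine ⟨2 + S.sup (fun p => (p : ℕ)) + W₁, by omega, ?_, ?_⟩
    · intro p hp
      have := Finset.le_sup (f := fun p : Nat.Primes => (p : ℕ)) hp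
      omega
    · have h5 : (4 * Kc / η) < ((2 + S.sup (fun p : Nat.Primes => (p : ℕ)) + W₁ : ℕ) : ℝ) := by
        refine hW₁.trans_le ?_
        exact_mod_cast Nat.le_add_left _ _
      have h6 : (0 : ℝ) < ((2 + S.sup (fun p : Nat.Primes => (p : ℕ)) + W₁ : ℕ) : ℝ) := by
        exact_mod_cast (by omega : 0 < 2 + S.sup (fun p : Nat.Primes => (p : ℕ)) + W₁)
      rw [div_lt_iff₀ hη] at h5
      rw [div_le_div_iff₀ h6 (by norm_num)]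
      linarith
  have hW0 : (0 : ℝ) < W := by exact_mod_cast (by omega : 0 < W)
  -- the exponents
  have hp : ∀ p : ℕ, ∃ n : ℕ, N ≤ n ∧ ∃ H₀ : ℕ, p.Prime → ∀ H : ℕ, H₀ ≤ H →
      (((BXI e H).filter (fun c => padBad p n c)).card : ℝ) ≤
        η / (4 * (W + 1)) * ((2 * H + 1 : ℕ) : ℝ) ^ ncI e := by
    intro p
    by_cases hpp : p.Prime
    · obtain ⟨n, hn, H₀, h5⟩ := h2 ι e p hpp (η / (4 * (W + 1))) N (by positivity)
      exact ⟨n, hn, H₀, fun _ H hH => h5 H hH⟩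
    · exact ⟨N, le_rfl, 0, fun h => absurd h hpp⟩
  choose n hn HP hHP using hp
  obtain ⟨PW, hPW⟩ : ∃ PW : Finset ℕ, PW = (Icc 1 W).filter Nat.Prime := ⟨_, rfl⟩
  obtain ⟨M, hM⟩ : ∃ M : ℕ, M = ∏ p ∈ (Icc 1 W).filter Nat.Prime, p ^ (3 * n p + 14) := ⟨_, rfl⟩
  have hmemPW : ∀ p : ℕ, p.Prime → p ≤ W → p ∈ (Icc 1 W).filter Nat.Prime := by
    intro p h5 h6
    rw [mem_filter, mem_Icc]
    exact ⟨⟨h5.one_lt.le, h6⟩, h5⟩
  have hM1 : 1 ≤ M := by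
    rw [hM]
    refine Nat.one_le_iff_ne_zero.2 (prod_ne_zero_iff.2 fun p h5 => ?_)
    exact pow_ne_zero _ (mem_filter.1 h5).2.ne_zero
  have hMp : ∀ p : ℕ, p.Prime → p ≤ W → p ^ (3 * n p + 14) ∣ M := by
    intro p h5 h6
    rw [hM]
    exact dvd_prod_of_mem (fun p => p ^ (3 * n p + 14)) (hmemPW p h5 h6)
  have hMp1 : ∀ p : ℕ, p.Prime → p ≤ W → p ∣ M := fun p h5 h6 =>
    (dvd_pow_self p (by omega)).trans (hMp p h5 h6)
  have hMp2 : ∀ p : ℕ, p.Prime → p ∣ M → p ≤ W := by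
    intro p h5 h6
    rw [hM] at h6
    obtain ⟨q, hq, h7⟩ := (Nat.Prime.prime h5).exists_mem_finset_dvd h6
    have h8 := (mem_filter.1 hq)
    have h9 := (Nat.prime_dvd_prime_iff_eq h5 h8.2).1 (h5.dvd_of_dvd_pow h7)
    rw [h9]
    exact (mem_Icc.1 h8.1).2
  have h2M : 2 ∣ M := hMp1 2 Nat.prime_two hW2
  -- the chosen points
  obtain ⟨Gd, hGd⟩ : ∃ Gd : ((k : ι) → Fin (e k + 2) → ℤ) → ℤ × ℤ → ℤ × ℤ → Prop,
    ∀ γ σ a, Gd γ σ a ↔ (LocC T M γ a.1 a.2 ∧ (Q : ℤ) ∣ a.1 - σ.1 ∧ (Q : ℤ) ∣ a.2 - σ.2) :=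
    ⟨_, fun _ _ _ => Iff.rfl⟩
  have ha : ∀ γ σ, ∃ a : ℤ × ℤ, (∃ a', Gd γ σ a') → Gd γ σ a := by
    intro γ σ
    by_cases h5 : ∃ a', Gd γ σ a'
    · obtain ⟨a', h6⟩ := h5
      exact ⟨a', fun _ => h6⟩
    · exact ⟨(0, 0), fun h => absurd h h5⟩
  choose a haG using ha
  have hB : ∀ x : (((k : ι) → Fin (e k + 2) → ℤ) × (ℤ × ℤ)) × ((ℝ × ℝ) ×
      (ι → ℤ)), ∃ H₀ : ℕ, ((∃ a', Gd x.1.1 x.1.2 a') ∧ x.2.1.1 < x.2.1.2 ∧ SSG T x.2.2) →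
      ∀ H : ℕ, H₀ ≤ H → ((BB T M x.1.1 x.2.2 (a x.1.1 x.1.2).1 (a x.1.1 x.1.2).2 x.2.1.1 x.2.1.2
        H).card : ℝ) ≤ C / W * (((2 * H + 1 : ℕ) : ℝ) / M) ^ ncI e := by
    intro x
    by_cases h5 : (∃ a', Gd x.1.1 x.1.2 a') ∧ x.2.1.1 < x.2.1.2 ∧ SSG T x.2.2
    · have h6 := (hGd _ _ _).1 (haG x.1.1 x.1.2 h5.1)
      obtain ⟨H₀, h7⟩ := hC W M (by omega) hM1 h2M hMp1 hMp2 (a x.1.1 x.1.2).1
        (a x.1.1 x.1.2).2 x.2.1.1 x.2.1.2 h5.2.1 x.1.1 x.2.2 h5.2.2 h6.1.1 h6.1.2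
      exact ⟨H₀, fun _ H hH => h7 H hH⟩
    · exact ⟨0, fun h => absurd h h5⟩
  choose HB hHB using hB
  obtain ⟨Gam, hGam⟩ : ∃ Gam : Finset ((k : ι) → Fin (e k + 2) → ℤ),
    Gam = Fintype.piFinset (fun k : ι =>
      Fintype.piFinset (fun _ : Fin (e k + 2) => Ico (0 : ℤ) M)) := ⟨_, rfl⟩
  obtain ⟨idx, hidx⟩ : ∃ idx : Finset ((((k : ι) → Fin (e k + 2) → ℤ) × (ℤ × ℤ)) ×
    ((ℝ × ℝ) × (ι → ℤ))), idx = (Gam ×ˢ Rs) ×ˢ (Z ×ˢ Sg) := ⟨_, rfl⟩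
  obtain ⟨idx', hidx'⟩ : ∃ idx' : Finset ((((k : ι) → Fin (e k + 2) → ℤ) ×
    (ℤ × ℤ)) × ((ℝ × ℝ) × (ι → ℤ))), idx' = idx.filter (fun x =>
      (∃ a', Gd x.1.1 x.1.2 a') ∧ x.2.1.1 < x.2.1.2 ∧ SSG T x.2.2) := ⟨_, rfl⟩
  refine ⟨HR + PW.sup HP + idx.sup HB, fun H hH => ?_⟩
  have hHR : HR ≤ H := by omega
  have hHPH : ∀ p ∈ PW, HP p ≤ H := by
    intro p h5
    have := Finset.le_sup (f := HP) h5
    omega
  have hHBH : ∀ x ∈ idx, HB x ≤ H := by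
    intro x h5
    have := Finset.le_sup (f := HB) h5
    omega
  obtain ⟨RR, hRR⟩ : ∃ RR : ℝ, RR = ((2 * H + 1 : ℕ) : ℝ) ^ ncI e := ⟨_, rfl⟩
  have hR0 : 0 ≤ RR := by rw [hRR]; positivity
  -- the three exceptional sets
  obtain ⟨A1, hA1⟩ : ∃ A1 : Finset ((k : ι) → Fin (e k + 2) → ℤ),
    A1 = PW.biUnion (fun p => (BXI e H).filter (fun c => padBad p (n p) c)) := ⟨_, rfl⟩
  obtain ⟨A2, hA2⟩ : ∃ A2 : Finset ((k : ι) → Fin (e k + 2) → ℤ),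
    A2 = (BXI e H).filter (fun c => (∃ z ∈ U, PSG T c (1 : ℝ) z) ∧
      ¬ ∃ w ∈ Z, ∃ s : ι → ℤ, SSG T s ∧
        ∀ k, ∀ z : ℝ, w.1 < z → z < w.2 → 0 < (s k : ℝ) * fmv (c k) 1 z) := ⟨_, rfl⟩
  obtain ⟨A3, hA3⟩ : ∃ A3 : Finset ((k : ι) → Fin (e k + 2) → ℤ),
    A3 = idx'.biUnion (fun x => BB T M x.1.1 x.2.2 (a x.1.1 x.1.2).1 (a x.1.1 x.1.2).2
      x.2.1.1 x.2.1.2 H) := ⟨_, rfl⟩
  have hc1 : (A1.card : ℝ) ≤ η / 4 * RR := by
    have h5 : (A1.card : ℝ) ≤ ∑ p ∈ PW,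
        (((BXI e H).filter (fun c => padBad p (n p) c)).card : ℝ) := by
      rw [hA1]
      exact_mod_cast card_biUnion_le
    refine h5.trans ?_
    have h6 : ∀ p ∈ PW, (((BXI e H).filter (fun c => padBad p (n p) c)).card : ℝ) ≤
        η / (4 * (W + 1)) * RR := by
      intro p h7
      rw [hRR]
      refine hHP p ?_ H (hHPH p h7)
      rw [hPW] at h7
      exact (mem_filter.1 h7).2
    refine (sum_le_sum h6).trans ?_
    rw [sum_const, nsmul_eq_mul]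
    have h7 : (PW.card : ℝ) ≤ W := by
      have h8 : PW.card ≤ W := by
        rw [hPW]
        refine (card_filter_le _ _).trans ?_
        rw [Nat.card_Icc]
        omega
      exact_mod_cast h8
    have h8 : (PW.card : ℝ) * (η / (4 * (W + 1))) ≤ η / 4 := by
      rw [← mul_div_assoc, div_le_div_iff₀ (by positivity) (by norm_num)]
      nlinarith
    calc (PW.card : ℝ) * (η / (4 * (W + 1)) * RR) = (PW.card : ℝ) * (η / (4 * (W + 1))) * RR := by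
          ring
      _ ≤ η / 4 * RR := mul_le_mul_of_nonneg_right h8 hR0
  have hc2 : (A2.card : ℝ) ≤ η / 4 * RR := by
    rw [hA2, hRR]
    have h5 := hR H hHR
    convert h5
  have hc3 : (A3.card : ℝ) ≤ η / 4 * RR := by
    have h5 : (A3.card : ℝ) ≤ ∑ x ∈ idx', ((BB T M x.1.1 x.2.2 (a x.1.1 x.1.2).1
        (a x.1.1 x.1.2).2 x.2.1.1 x.2.1.2 H).card : ℝ) := by
      rw [hA3]
      exact_mod_cast card_biUnion_le
    refine h5.trans ?_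
    have h6 : ∀ x ∈ idx', ((BB T M x.1.1 x.2.2 (a x.1.1 x.1.2).1
        (a x.1.1 x.1.2).2 x.2.1.1 x.2.1.2 H).card : ℝ) ≤
        C / W * (((2 * H + 1 : ℕ) : ℝ) / M) ^ ncI e := by
      intro x h7
      rw [hidx'] at h7
      have h8 := mem_filter.1 h7
      exact hHB x h8.2 H (hHBH x h8.1)
    refine (sum_le_sum h6).trans ?_
    rw [sum_const, nsmul_eq_mul]
    have h7 : (idx'.card : ℝ) ≤ (M : ℝ) ^ ncI e * (Rs.card * Z.card * Sg.card) := by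
      have h8 : idx'.card ≤ M ^ ncI e * (Rs.card * Z.card * Sg.card) := by
        rw [hidx']
        refine (card_filter_le _ _).trans ?_
        rw [hidx, card_product, card_product, card_product, hGam, card_Gam]
        apply le_of_eq
        ring
      exact_mod_cast h8
    have hM0 : (0 : ℝ) < (M : ℝ) ^ ncI e := by
      have : (0 : ℝ) < M := by exact_mod_cast hM1
      positivity
    have h9 : 0 ≤ C / W * (((2 * H + 1 : ℕ) : ℝ) / M) ^ ncI e := by positivity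
    refine (mul_le_mul_of_nonneg_right h7 h9).trans ?_
    have h10 : (M : ℝ) ^ ncI e * (Rs.card * Z.card * Sg.card) *
        (C / W * (((2 * H + 1 : ℕ) : ℝ) / M) ^ ncI e) = Kc / W * RR := by
      rw [div_pow, hKc, hRR]
      field_simp
    rw [h10]
    exact mul_le_mul_of_nonneg_right hWK hR0
  -- the covering
  have hsub : (BXI e H).filter (fun c => LocG T U c ∧ ¬ ApprG T U S N c) ⊆ A1 ∪ A2 ∪ A3 := by
    intro c hc
    obtain ⟨hcB, hcL, hcA⟩ := mem_filter.1 hc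
    by_cases h5 : ∃ p ∈ PW, padBad p (n p) c
    · obtain ⟨p, h6, h7⟩ := h5
      refine mem_union_left _ (mem_union_left _ ?_)
      rw [hA1, mem_biUnion]
      exact ⟨p, h6, mem_filter.2 ⟨hcB, h7⟩⟩
    by_cases h6 : ∃ w ∈ Z, ∃ s : ι → ℤ, SSG T s ∧
        ∀ k, ∀ z : ℝ, w.1 < z → z < w.2 → 0 < (s k : ℝ) * fmv (c k) 1 z
    swap
    · refine mem_union_left _ (mem_union_right _ ?_)
      rw [hA2, mem_filter]
      exact ⟨hcB, hcL.1, h6⟩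
    refine mem_union_right _ ?_
    obtain ⟨w, hw, s, hs, hpos⟩ := h6
    have hnb : ∀ p : ℕ, p.Prime → p ≤ W → ¬ padBad p (n p) c := by
      intro p h7 h8 h9
      refine h5 ⟨p, ?_, h9⟩
      rw [hPW]
      exact hmemPW p h7 h8
    unfold ApprG at hcA
    push Not at hcA
    obtain ⟨X, Y, hXY, hno⟩ := hcA
    obtain ⟨a₀, a₁, hclose, hloc⟩ := h4 ι e T U S N W n M hM hWS hn c hnb hcL X Y hXY
    -- the class
    obtain ⟨γ, hγ⟩ : ∃ γ : (k : ι) → Fin (e k + 2) → ℤ, ∀ k j, γ k j = c k j % M :=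
      ⟨_, fun _ _ => rfl⟩
    have hM0' : (0 : ℤ) < M := by exact_mod_cast hM1
    have hγG : γ ∈ Gam := by
      rw [hGam, Fintype.mem_piFinset]
      intro k
      rw [Fintype.mem_piFinset]
      intro j
      rw [mem_Ico, hγ]
      exact ⟨Int.emod_nonneg _ hM0'.ne', Int.emod_lt_of_pos _ hM0'⟩
    have hcγ : ∀ k j, (M : ℤ) ∣ c k j - γ k j := by
      intro k j
      rw [hγ]
      exact Int.dvd_self_sub_emod
    have hQ0' : (0 : ℤ) < Q := by exact_mod_cast hQ0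
    obtain ⟨σ, hσ⟩ : ∃ σ : ℤ × ℤ, σ = (a₀ % Q, a₁ % Q) := ⟨_, rfl⟩
    have hσR : σ ∈ Rs := by
      rw [hRs, mem_product, mem_Ico, mem_Ico, hσ]
      exact ⟨⟨Int.emod_nonneg _ hQ0'.ne', Int.emod_lt_of_pos _ hQ0'⟩,
        ⟨Int.emod_nonneg _ hQ0'.ne', Int.emod_lt_of_pos _ hQ0'⟩⟩
    have hex : ∃ a', Gd γ σ a' := by
      refine ⟨(a₀, a₁), (hGd _ _ _).2 ⟨hloc γ hcγ, ?_, ?_⟩⟩
      · rw [hσ]
        exact Int.dvd_self_sub_emod
      · rw [hσ]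
        exact Int.dvd_self_sub_emod
    have hchosen := (hGd _ _ _).1 (haG γ σ hex)
    have hsSg : s ∈ Sg := by
      rw [hSg, Fintype.mem_piFinset]
      intro k
      rw [mem_insert, mem_singleton]
      exact hs.1 k
    rw [hA3, mem_biUnion]
    refine ⟨((γ, σ), (w, s)), ?_, ?_⟩
    · rw [hidx', mem_filter, hidx]
      refine ⟨mem_product.2 ⟨mem_product.2 ⟨hγG, hσR⟩, mem_product.2 ⟨hw, hsSg⟩⟩, hex,
        (hZ w hw).1, hs⟩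
    · unfold BB
      rw [mem_filter]
      refine ⟨hcB, hcγ, hpos, ?_⟩
      rintro ⟨x, y, hx0, hxM, hyM, hxy, hyx, hPS⟩
      have hx0' : (0 : ℝ) < x := by exact_mod_cast hx0
      have hyU : (y : ℝ) / x ∈ U := by
        refine (hZ w hw).2 ⟨?_, ?_⟩
        · rw [le_div_iff₀ hx0']
          exact hxy.le
        · rw [div_le_iff₀ hx0']
          exact hyx.le
      -- closeness
      have hdvdQ : ∀ p ∈ S, (((p : ℕ) : ℤ) ^ N) ∣ (Q : ℤ) := by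
        intro p hp
        have h7 : (p : ℕ) ^ N ∣ Q := by
          rw [hQ]
          exact dvd_prod_of_mem (fun p : Nat.Primes => (p : ℕ) ^ N) hp
        exact_mod_cast h7
      have hdvdM : ∀ p ∈ S, (((p : ℕ) : ℤ) ^ N) ∣ (M : ℤ) := by
        intro p hp
        have h7 : (p : ℕ) ^ N ∣ M := by
          refine (pow_dvd_pow _ ?_).trans (hMp p p.2 (hWS p hp))
          have := hn p
          omega
        exact_mod_cast h7
      have key : ∀ (b b' z : ℤ) (τ : ℤ), (Q : ℤ) ∣ b - τ → (Q : ℤ) ∣ b' - τ →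
          (M : ℤ) ∣ z - b' → ∀ p ∈ S, (((p : ℕ) : ℤ) ^ N) ∣ b - z := by
        intro b b' z τ h7 h8 h9 p hp
        have h10 : b - z = (b - τ) - (b' - τ) - (z - b') := by ring
        rw [h10]
        exact dvd_sub (dvd_sub ((hdvdQ p hp).trans h7) ((hdvdQ p hp).trans h8))
          ((hdvdM p hp).trans h9)
      have hcl : ∀ p ∈ S, ‖X p - (x : ℚ_[(p : ℕ)])‖ ≤ (((p : ℕ) : ℝ) ^ N)⁻¹ ∧
          ‖Y p - (y : ℚ_[(p : ℕ)])‖ ≤ (((p : ℕ) : ℝ) ^ N)⁻¹ := by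
        intro p hp
        refine ⟨padic_close p N (X p) a₀ x (hclose p hp).1 ?_,
          padic_close p N (Y p) a₁ y (hclose p hp).2 ?_⟩
        · refine key a₀ (a γ σ).1 x σ.1 ?_ hchosen.2.1 hxM p hp
          rw [hσ]
          exact Int.dvd_self_sub_emod
        · refine key a₁ (a γ σ).2 y σ.2 ?_ hchosen.2.2 hyM p hp
          rw [hσ]
          exact Int.dvd_self_sub_emod
      obtain ⟨p, hp, h7⟩ := hno x y hx0 hyU hPS
      exact absurd (hcl p hp).2 (not_le.2 (h7 (hcl p hp).1))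
  have hfin : (((BXI e H).filter (fun c => LocG T U c ∧ ¬ ApprG T U S N c)).card : ℝ) ≤
      (A1.card : ℝ) + A2.card + A3.card := by
    have h5 := (card_le_card hsub).trans ((card_union_le _ _).trans
      (Nat.add_le_add_right (card_union_le _ _) _))
    exact_mod_cast h5
  rw [← hRR]
  have h6 : η / 4 * RR + η / 4 * RR + η / 4 * RR ≤ η * RR := by nlinarith [mul_nonneg hη.le hR0]
  have h7 := hfin.trans (add_le_add (add_le_add hc1 hc2) hc3)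
  convert h7.trans h6

end

end Pool.Agent.U784.DQ
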